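import Pool.Agent.TH133.PW.EvDefs
import Pool.Agent.TH720.LB.Stm

/-!
# The sign conjecture in the middle degree: definitions
-/

open CategoryTheory AlgebraicGeometry

universe u v

namespace Pool.Agent.TH720.MP

open Pool.Agent.H914 Pool.Agent.H447 Pool.Agent.TH133.PW VarClass Obj WeilCohomology

section Alg

variable {K : Type*} [Field K] {V : Type*} [AddCommGroup V] [Module K V]

/-- `φ` is the identity on `gr n`, and zero on the `gr j` with `j < n` of the other parity
than `n`. -/
def CutsOut (gr : ℕ → Submodule K V) (n : ℕ) (φ : Module.End K V) : Prop :=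
  (∀ y ∈ gr n, φ y = y) ∧ ∀ j < n, j % 2 ≠ n % 2 → ∀ y ∈ gr j, φ y = 0

/-- `φ` is injective on `gr n`, and nilpotent on the `gr j` with `j < n` of the other parity
than `n`. -/
def CutsOutWeakly (gr : ℕ → Submodule K V) (n : ℕ) (φ : Module.End K V) : Prop :=
  (∀ y ∈ gr n, φ y = 0 → y = 0) ∧ ∀ j < n, j % 2 ≠ n % 2 → ∀ y ∈ gr j, ∃ r : ℕ, (φ ^ r) y = 0

/-- Some linear combination of the operators in `S` is injective on `gr n`, and nilpotent on the
`gr j` with `j < n` of the other parity than `n`. -/
def CutsInSpan (gr : ℕ → Submodule K V) (n : ℕ) (S : Set (V →ₗ[K] V)) : Prop :=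
  ∃ φ ∈ Submodule.span K S, CutsOutWeakly gr n φ

/-- For all `j < n` of the other parity than `n`, `y` in `gr n` and `y'` in `gr j` some linear
combination `φ` of the operators in `S`, which may depend on `y` and `y'`, satisfies `φ y = y` and
`φ y' = 0`. -/
def SeparatesFrom (gr : ℕ → Submodule K V) (n : ℕ) (S : Set (V →ₗ[K] V)) : Prop :=
  ∀ j < n, j % 2 ≠ n % 2 → ∀ y ∈ gr n, ∀ y' ∈ gr j, ∃ φ ∈ Submodule.span K S, φ y = y ∧ φ y' = 0

variable {A B : Type*} [Ring A] [Algebra K A] [Ring B] [Algebra K B]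

/-- If `j < n` is of the other parity than `n` and `p(y) q(w) + p(y') q(w')` is orthogonal to the
elements of `Z`, for `y`, `w`, `y'`, `w'` of degrees `n`, `n`, `j`, `2 n - j`, then
`tr (y w) = 0`. -/
def DetectsSumsFrom (gr : ℕ → Submodule K A) (n : ℕ) (tr : A →ₗ[K] K) (tr' : B →ₗ[K] K)
    (p q : A →ₐ[K] B) (Z : Set B) : Prop :=
  ∀ j < n, j % 2 ≠ n % 2 → ∀ y ∈ gr n, ∀ w ∈ gr n, ∀ y' ∈ gr j, ∀ w' ∈ gr (2 * n - j),
    OrthogonalTo tr' Z (p y * q w + p y' * q w') → tr (y * w) = 0

end Alg

variable {k : Type u} [Field k] {𝒱 : VarClass k} {ops : CycleOps 𝒱}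

/-- An algebraic cycle on `Y × Y` acts as the identity on the middle cohomology `H^n(Y)`,
`n = dim Y`, and as zero on the `H^j(Y)` with `j < n` of the other parity than `n`. -/
def MidCycle (W : WeilCohomology.{u, v} ops) (Y : 𝒱.Obj) : Prop :=
  ∃ z, (Y.prod Y).IsCyc Y.dim z ∧ CutsOut (W.gr Y) Y.dim (W.corr (W.cl (Y.prod Y) z))

/-- A linear combination (with coefficients in `K`) of algebraic correspondences is injective on the
middle cohomology `H^n(Y)`, `n = dim Y`, and nilpotent on the `H^j(Y)` with `j < n` of the other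
parity. -/
def MidWeak (W : WeilCohomology.{u, v} ops) (Y : 𝒱.Obj) : Prop :=
  CutsInSpan (W.gr Y) Y.dim (cycleOperators W Y Y.dim)

/-- For every `y` in the middle cohomology `H^n(Y)`, `n = dim Y`, and every `y'` in `H^j(Y)` with
`j < n` of the other parity some linear combination `φ` (with coefficients in `K`) of algebraic
correspondences satisfies `φ y = y` and `φ y' = 0`. -/
def MidPairs (W : WeilCohomology.{u, v} ops) (Y : 𝒱.Obj) : Prop :=
  SeparatesFrom (W.gr Y) Y.dim (cycleOperators W Y Y.dim)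

/-- If `y`, `w` are classes in the middle cohomology `H^n(Y)`, `n = dim Y`, and `y'`, `w'` classes of
degrees `j` and `2 n - j`, `j < n` of the other parity than `n`, and `y × w + y' × w'` is orthogonal to
all algebraic cycles of codimension `n` on `Y × Y`, then `tr (y w) = 0`. -/
def MidDetects (W : WeilCohomology.{u, v} ops) (Y : 𝒱.Obj) : Prop :=
  DetectsSumsFrom (W.gr Y) Y.dim (W.tr Y) (W.tr (Y.prod Y)) (W.map (fst Y Y)) (W.map (snd Y Y))
    (algClasses W (Y.prod Y) Y.dim)

/-- `S` holds for all varieties of the class `C` whose dimension satisfies `q`. -/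
def ForAll (C : 𝒱.Obj → Prop) (q : ℕ → Prop) (S : 𝒱.Obj → Prop) : Prop :=
  ∀ X, C X → q X.dim → S X

/-- The equivalences for one variety `X`, in terms of `Y` (which will be `X × P m`). -/
def OneVariety (W : WeilCohomology.{u, v} ops) (X Y : 𝒱.Obj) : Prop :=
  List.TFAE [SignStd W X, SignStd W Y, MidCycle W Y, MidWeak W Y, MidPairs W Y, MidDetects W Y]

/-- `C⁺` for all varieties of the class `C`, `S` for those of odd dimension, and `S` for those of
even dimension are equivalent. -/
def SameAs (W : WeilCohomology.{u, v} ops) (C : 𝒱.Obj → Prop) (S : 𝒱.Obj → Prop) : Prop :=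
  List.TFAE [ForAll C (fun _ => True) (SignStd W), ForAll C Odd S, ForAll C Even S]

/-- The equivalences for all varieties of the class `C` together. -/
def AllVarieties (W : WeilCohomology.{u, v} ops) (C : 𝒱.Obj → Prop) : Prop :=
  SameAs W C (MidCycle W) ∧ SameAs W C (MidWeak W) ∧ SameAs W C (MidPairs W) ∧
    SameAs W C (MidDetects W)

/-- The class `C` is closed under the products with the `P m`. -/
def ClosedUnder (P : ℕ → 𝒱.Obj) (C : 𝒱.Obj → Prop) : Prop := ∀ X m, C X → C (X.prod (P m))

end Pool.Agent.TH720.MP
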