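import Pool.Agent.TH133.PW.Ev
import Pool.Agent.TH720.MP.Defs

/-!
# The sign conjecture in the middle degree
-/

open CategoryTheory AlgebraicGeometry Finset

universe u v

namespace Pool.Agent.TH720.MP

open Pool.Agent.H914 Pool.Agent.TH133.PW Pool.Agent.TH720.LB Pool.Agent.W534 Pool.Agent.W537
  Pool.Agent.H447 VarClass Obj WeilCohomology

section Lin

variable {K V : Type*} [Field K] [AddCommGroup V] [Module K V] {gr : ℕ → Submodule K V}
  {A : Submodule K (Module.End K V)}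

lemma aeval_mem (h1 : (1 : Module.End K V) ∈ A) (hmul : ∀ a ∈ A, ∀ b ∈ A, a * b ∈ A)
    {φ : Module.End K V} (hφ : φ ∈ A) (g : Polynomial K) : Polynomial.aeval φ g ∈ A := by
  induction g using Polynomial.induction_on with
  | C a =>
    rw [Polynomial.aeval_C, Algebra.algebraMap_eq_smul_one]
    exact A.smul_mem _ h1
  | add p q hp hq => rw [map_add]; exact A.add_mem hp hq
  | monomial n a h =>
    rw [pow_succ, ← mul_assoc, map_mul, Polynomial.aeval_X]
    exact hmul _ h _ hφ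

lemma aeval_stable {U : Submodule K V} {φ : Module.End K V} (hU : ∀ y ∈ U, φ y ∈ U)
    (g : Polynomial K) : ∀ y ∈ U, Polynomial.aeval φ g y ∈ U := by
  induction g using Polynomial.induction_on with
  | C a =>
    intro y hy
    rw [Polynomial.aeval_C, Algebra.algebraMap_eq_smul_one, LinearMap.smul_apply,
      Module.End.one_apply]
    exact U.smul_mem _ hy
  | add p q hp hq =>
    intro y hy
    rw [map_add, LinearMap.add_apply]
    exact U.add_mem (hp y hy) (hq y hy)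
  | monomial n a h =>
    intro y hy
    rw [pow_succ, ← mul_assoc, map_mul, Polynomial.aeval_X, Module.End.mul_apply]
    exact h _ (hU y hy)

/-- The operator which cuts out `gr n`, from a weak one. -/
theorem cutsOut_of_weak [FiniteDimensional K V] (h1 : (1 : Module.End K V) ∈ A)
    (hmul : ∀ a ∈ A, ∀ b ∈ A, a * b ∈ A) (hgr : ∀ a ∈ A, ∀ i, ∀ y ∈ gr i, a y ∈ gr i)
    {n : ℕ} {φ : Module.End K V} (hφ : φ ∈ A) (h : CutsOutWeakly gr n φ) :
    ∃ f ∈ A, CutsOut gr n f := by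
  obtain ⟨hinj, hnil⟩ := h
  set N := Module.finrank K V with hN
  have hp0 : minpoly K φ ≠ 0 := minpoly.ne_zero (Algebra.IsIntegral.isIntegral φ)
  obtain ⟨q, hq, hnd⟩ := Polynomial.exists_eq_pow_rootMultiplicity_mul_and_not_dvd
    (minpoly K φ) hp0 0
  set a := Polynomial.rootMultiplicity 0 (minpoly K φ) with ha
  rw [map_zero, sub_zero] at hq hnd
  have hcop : IsCoprime (Polynomial.X ^ N) q :=
    IsCoprime.pow_left ((Polynomial.irreducible_X.coprime_iff_not_dvd).2 hnd)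
  obtain ⟨s, t, hst⟩ := hcop
  have hpow : ∀ r : ℕ, ∀ y ∈ gr n, (φ ^ r) y = 0 → y = 0 := by
    intro r
    induction r with
    | zero => intro y _ hy; simpa using hy
    | succ r ih =>
      intro y hy hy0
      rw [pow_succ, Module.End.mul_apply] at hy0
      exact hinj y hy (ih _ (hgr _ hφ _ _ hy) hy0)
  have hqy : ∀ y ∈ gr n, Polynomial.aeval φ q y = 0 := by
    intro y hy
    have h2 : Polynomial.aeval φ (minpoly K φ) y = 0 := by
      rw [minpoly.aeval, LinearMap.zero_apply]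
    rw [hq, map_mul, map_pow, Polynomial.aeval_X, Module.End.mul_apply] at h2
    exact hpow a _ (aeval_stable (fun y hy => hgr _ hφ _ _ hy) q y hy) h2
  refine ⟨Polynomial.aeval φ (s * Polynomial.X ^ N), aeval_mem h1 hmul hφ _, ?_, ?_⟩
  · intro y hy
    have h3 : Polynomial.aeval φ (s * Polynomial.X ^ N + t * q) y = y := by
      rw [hst, map_one, Module.End.one_apply]
    rw [map_add, LinearMap.add_apply, map_mul (Polynomial.aeval φ) t q, Module.End.mul_apply,
      hqy y hy, map_zero, add_zero] at h3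
    exact h3
  · intro j hjn hj y hy
    obtain ⟨r, hr⟩ := hnil j hjn hj y hy
    have h4 : (φ ^ N) y = 0 := by
      have := Module.End.ker_pow_le_ker_pow_finrank φ r (LinearMap.mem_ker.2 hr)
      exact LinearMap.mem_ker.1 this
    rw [map_mul, map_pow, Polynomial.aeval_X, Module.End.mul_apply, h4, map_zero]

/-- The operator which cuts out `gr n`, from the separation of pairs. -/
theorem cutsOut_of_separates [FiniteDimensional K V] {S : Set (V →ₗ[K] V)}
    (hA : Submodule.span K S = A)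
    (h1 : (1 : Module.End K V) ∈ A)
    (hmul : ∀ a ∈ A, ∀ b ∈ A, a * b ∈ A) (hgr : ∀ a ∈ A, ∀ i, ∀ y ∈ gr i, a y ∈ gr i)
    {n : ℕ} (h : SeparatesFrom gr n S) : ∃ f ∈ A, CutsOut gr n f := by
  have hsep : ∀ j < n, j % 2 ≠ n % 2 → ∃ c ∈ A, (∀ y ∈ gr n, c y = 0) ∧
      ∀ y' ∈ gr j, c y' = y' := fun j hjn hj =>
    separate_two h1 hmul (IsNoetherian.noetherian _) (IsNoetherian.noetherian _)
      (fun b hb => hgr b hb n) (fun b hb => hgr b hb j)
      (fun y hy y' hy' => by rw [← hA]; exact h j hjn hj y hy y' hy')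
  have key : ∀ m ≤ n, ∃ e ∈ A, (∀ y ∈ gr n, e y = y) ∧
      ∀ j < m, j % 2 ≠ n % 2 → ∀ y ∈ gr j, e y = 0 := by
    intro m
    induction m with
    | zero => exact fun _ => ⟨1, h1, fun y _ => rfl, fun j hj => absurd hj (Nat.not_lt_zero _)⟩
    | succ m ih =>
      intro hmn
      obtain ⟨e, he, he1, he2⟩ := ih (by omega)
      by_cases hm : m % 2 ≠ n % 2
      · obtain ⟨c, hc, hc1, hc2⟩ := hsep m (by omega) hm
        refine ⟨e * (1 - c), hmul _ he _ (Submodule.sub_mem _ h1 hc), ?_, ?_⟩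
        · intro y hy
          rw [Module.End.mul_apply, LinearMap.sub_apply, Module.End.one_apply, hc1 y hy, sub_zero,
            he1 y hy]
        · intro j hj hjo y hy
          rw [Module.End.mul_apply, LinearMap.sub_apply, Module.End.one_apply]
          by_cases hjm : j = m
          · subst hjm
            rw [hc2 y hy, sub_self, map_zero]
          · exact he2 j (by omega) hjo _ (Submodule.sub_mem _ hy (hgr c hc j y hy))
      · refine ⟨e, he, he1, fun j hj hjo y hy => he2 j ?_ hjo y hy⟩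
        have : j ≠ m := by rintro rfl; exact hm hjo
        omega
  obtain ⟨e, he, he1, he2⟩ := key n le_rfl
  exact ⟨e, he, he1, he2⟩

end Lin

variable {k : Type u} [Field k] {𝒱 : VarClass k} {ops : CycleOps 𝒱}
  {W : WeilCohomology.{u, v} ops} {X Y P : 𝒱.Obj} {h : P.Cycles}

lemma kmul {X : 𝒱.Obj} : ∀ a ∈ KOp W X X 0, ∀ b ∈ KOp W X X 0,
    (a * b : Module.End W.K (W.H X)) ∈ KOp W X X 0 :=
  fun _ ha _ hb => KOp.cast (KOp.comp ha hb) (by ring)

lemma kone {X : 𝒱.Obj} : (1 : Module.End W.K (W.H X)) ∈ KOp W X X 0 := KOp.id X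

/-- From the lower degrees to all degrees. -/
theorem cutsOut_full {f : Module.End W.K (W.H Y)} (hf : f ∈ KOp W Y Y 0)
    (hc : CutsOut (W.gr Y) Y.dim f) : ∃ f' ∈ KOp W Y Y 0, (∀ y ∈ W.gr Y Y.dim, f' y = y) ∧
      ∀ j, j % 2 ≠ Y.dim % 2 → ∀ y ∈ W.gr Y j, f' y = 0 := by
  obtain ⟨hf1, hf2⟩ := hc
  obtain ⟨ψ, hψ, hadj⟩ := KOp.exists_adjoint hf
  have hψ0 : ψ ∈ KOp W Y Y 0 := KOp.cast hψ (by ring)
  have hψ1 : ∀ b ∈ W.gr Y Y.dim, ψ b = b := by
    intro b hb
    rw [← sub_eq_zero]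
    apply nondeg_right
    intro c
    refine gr_induction (W.isInternal Y) (p := fun c => W.tr Y (c * (ψ b - b)) = 0) ?_ ?_ c
    · intro j c hc
      by_cases hj : j = Y.dim
      · subst hj
        rw [mul_sub, map_sub, ← hadj, hf1 c hc, sub_self]
      · exact W.tr_eq_zero (W.mul_mem hc (Submodule.sub_mem _ (kop_gr hψ0 _ hb) hb)) (by omega)
    · intro c c' h1 h2
      rw [add_mul, map_add, h1, h2, add_zero]
  have hψ2 : ∀ j, Y.dim < j → j % 2 ≠ Y.dim % 2 → ∀ b ∈ W.gr Y j, ψ b = 0 := by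
    intro j hj hjp b hb
    apply nondeg_right
    intro c
    refine gr_induction (W.isInternal Y) (p := fun c => W.tr Y (c * ψ b) = 0) ?_ ?_ c
    · intro i c hc
      by_cases hi : i + j = 2 * Y.dim
      · rw [← hadj, hf2 i (by omega) (by omega) c hc, zero_mul, map_zero]
      · exact W.tr_eq_zero (W.mul_mem hc (kop_gr hψ0 _ hb)) hi
    · intro c c' h1 h2
      rw [add_mul, map_add, h1, h2, add_zero]
  refine ⟨ψ * f, kmul _ hψ0 _ hf, fun y hy => ?_, fun j hj y hy => ?_⟩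
  · rw [Module.End.mul_apply, hf1 y hy, hψ1 y hy]
  · rw [Module.End.mul_apply]
    rcases lt_trichotomy j Y.dim with h1 | h1 | h1
    · rw [hf2 j h1 hj y hy, map_zero]
    · exact absurd (by rw [h1]) hj
    · exact hψ2 j h1 hj _ (kop_gr hf j hy)

/-- `C⁺` from an operator on `X × P` which cuts out the middle cohomology. -/
theorem sign_of_cutsOut (hP : IsProjLike W P h) (hdim : X.dim ≤ P.dim + 1)
    {f₀ : Module.End W.K (W.H (X.prod P))} (hf₀ : f₀ ∈ KOp W (X.prod P) (X.prod P) 0)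
    (hc : CutsOut (W.gr (X.prod P)) (X.prod P).dim f₀) : SignStd W X := by
  obtain ⟨f, hf, hf1, hf2⟩ := cutsOut_full hf₀ hc
  have hn : (X.prod P).dim = X.dim + P.dim := dim_prod X P
  -- one block
  have blk : ∀ a ≤ P.dim, coe W X h a ∘ₗ f ∘ₗ inc W X h a ∈ KOp W X X 0 := by
    intro a ha
    exact KOp.cast (KOp.comp (qop_coe hP ha).kop (KOp.comp hf (qop_inc hP a).kop)) (by ring)
  have blk1 : ∀ a ≤ P.dim, ∀ i, i + 2 * a = X.dim + P.dim → ∀ x ∈ W.gr X i,
      (coe W X h a ∘ₗ f ∘ₗ inc W X h a) x = x := by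
    intro a ha i hi x hx
    have hx' : inc W X h a x ∈ W.gr (X.prod P) (X.prod P).dim :=
      qop_mem (qop_inc hP a) hx (by rw [hn]; omega)
    rw [LinearMap.comp_apply, LinearMap.comp_apply, hf1 _ hx', coe_inc hP ha, if_pos rfl]
  have blk2 : ∀ a ≤ P.dim, ∀ j, j % 2 ≠ (X.dim + P.dim) % 2 → ∀ x ∈ W.gr X j,
      (coe W X h a ∘ₗ f ∘ₗ inc W X h a) x = 0 := by
    intro a ha j hj x hx
    have hx' : inc W X h a x ∈ W.gr (X.prod P) (j + 2 * a) :=
      qop_mem (qop_inc hP a) hx (by push_cast; ring)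
    rw [LinearMap.comp_apply, LinearMap.comp_apply, hf2 _ (by rw [hn]; omega) _ hx', map_zero]
  -- the product of the `1 - block`
  have key : ∀ m ≤ P.dim + 1, ∃ g ∈ KOp W X X 0,
      (∀ a < m, ∀ i, i + 2 * a = X.dim + P.dim → ∀ x ∈ W.gr X i, g x = 0) ∧
      ∀ j, j % 2 ≠ (X.dim + P.dim) % 2 → ∀ x ∈ W.gr X j, g x = x := by
    intro m
    induction m with
    | zero =>
      exact fun _ => ⟨1, kone, fun a ha => absurd ha (Nat.not_lt_zero _), fun j _ x _ => rfl⟩
    | succ m ih =>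
      intro hm
      obtain ⟨g, hg, hg1, hg2⟩ := ih (by omega)
      have hb := blk m (by omega)
      refine ⟨g * (1 - coe W X h m ∘ₗ f ∘ₗ inc W X h m),
        kmul _ hg _ (Submodule.sub_mem _ kone hb), ?_, ?_⟩
      · intro a ha i hi x hx
        rw [Module.End.mul_apply, LinearMap.sub_apply, Module.End.one_apply]
        by_cases ham : a = m
        · subst ham
          rw [blk1 a (by omega) i hi x hx, sub_self, map_zero]
        · exact hg1 a (by omega) i hi _ (Submodule.sub_mem _ hx (kop_gr hb i hx))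
      · intro j hj x hx
        rw [Module.End.mul_apply, LinearMap.sub_apply, Module.End.one_apply,
          blk2 m (by omega) j hj x hx, sub_zero, hg2 j hj x hx]
  obtain ⟨g, hg, hg1, hg2⟩ := key (P.dim + 1) le_rfl
  have hg1' : ∀ i, i % 2 = (X.dim + P.dim) % 2 → ∀ x ∈ W.gr X i, g x = 0 := by
    intro i hi x hx
    by_cases hi2 : i ≤ 2 * X.dim
    · refine hg1 ((X.dim + P.dim - i) / 2) (by omega) i (by omega) x hx
    · rw [W.gr_eq_bot X i (by omega)] at hx
      rw [(Submodule.mem_bot _).1 hx, map_zero]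
  refine signStd_of_span ?_
  rw [EvenProjInSpan, span_cycleOperators0]
  by_cases hpar : Even (X.dim + P.dim)
  · refine ⟨1 - g, Submodule.sub_mem _ kone hg, fun j a ha => ?_⟩
    rw [LinearMap.sub_apply, Module.End.one_apply]
    have hpar' : (X.dim + P.dim) % 2 = 0 := Nat.even_iff.1 hpar
    split_ifs with hj
    · rw [hg1' j (by rw [hpar']; exact Nat.even_iff.1 hj) a ha, sub_zero]
    · rw [hg2 j (by rw [hpar']; intro h0; exact hj (Nat.even_iff.2 h0)) a ha, sub_self]
  · refine ⟨g, hg, fun j a ha => ?_⟩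
    have hpar' : (X.dim + P.dim) % 2 = 1 := Nat.odd_iff.1 (Nat.not_even_iff_odd.1 hpar)
    split_ifs with hj
    · exact hg2 j (by rw [hpar', Nat.even_iff.1 hj]; norm_num) a ha
    · exact hg1' j (by rw [hpar']; exact Nat.odd_iff.1 (Nat.not_even_iff_odd.1 hj)) a ha

/-- `C⁺(X)` implies `C⁺(X × P)`. -/
theorem sign_prod (hP : IsProjLike W P h) (hX : SignStd W X) : SignStd W (X.prod P) := by
  obtain ⟨z, hz, hz'⟩ := hX
  set E : Module.End W.K (W.H X) := W.corr (W.cl (X.prod X) z) with hE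
  have hEq : QOp W X X 0 E := QOp.gen (p := X.dim) (by ring) hz
  have hF : QOp W (X.prod P) (X.prod P) 0
      (∑ a ∈ range (P.dim + 1), inc W X h a ∘ₗ E ∘ₗ coe W X h a) := by
    refine QOp.sum fun a ha => ?_
    have ha' : a ≤ P.dim := by simp at ha; omega
    exact ((qop_inc hP a).comp (hEq.comp (qop_coe hP ha'))).cast (by ring)
  obtain ⟨w, hw, hw'⟩ := hF.exists_cyc (p := (X.prod P).dim) (by ring)
  refine ⟨w, hw, fun j y hy => ?_⟩
  rw [hw', LinearMap.sum_apply]
  have hterm : ∀ a ∈ range (P.dim + 1), (inc W X h a ∘ₗ E ∘ₗ coe W X h a) y =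
      if Even j then inc W X h a (coe W X h a y) else 0 := by
    intro a ha
    have ha' : a ≤ P.dim := by simp at ha; omega
    rw [LinearMap.comp_apply, LinearMap.comp_apply]
    by_cases hja : 2 * a ≤ j
    · have hc : coe W X h a y ∈ W.gr X (j - 2 * a) := qop_mem (qop_coe hP ha') hy (by omega)
      rw [hz' _ _ hc]
      have hiff : Even (j - 2 * a) ↔ Even j := by
        rw [Nat.even_iff, Nat.even_iff]; omega
      by_cases hj : Even j
      · rw [if_pos (hiff.2 hj), if_pos hj]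
      · rw [if_neg (fun h0 => hj (hiff.1 h0)), if_neg hj, map_zero]
    · have hc : coe W X h a y = 0 := qop_mem_neg (qop_coe hP ha') hy (by omega)
      rw [hc, map_zero, map_zero]
      simp
  rw [Finset.sum_congr rfl hterm]
  by_cases hj : Even j
  · simp only [if_pos hj]
    exact decomp hP y
  · simp only [if_neg hj]
    exact Finset.sum_const_zero

/-- `C⁺(Y)` implies the statement with a cycle. -/
theorem midCycle_of_sign (hY : SignStd W Y) : MidCycle W Y := by
  obtain ⟨z, hz, hz'⟩ := hY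
  have hEq : QOp W Y Y 0 (W.corr (W.cl (Y.prod Y) z)) := QOp.gen (p := Y.dim) (by ring) hz
  by_cases hpar : Even Y.dim
  · refine ⟨z, hz, fun y hy => ?_, fun j _ hj y hy => ?_⟩
    · rw [hz' _ y hy, if_pos hpar]
    · rw [hz' _ y hy, if_neg]
      intro h0
      rw [Nat.even_iff] at h0 hpar
      omega
  · obtain ⟨w, hw, hw'⟩ := (qop_sub (d := 0) qop_id hEq).exists_cyc (p := Y.dim) (by ring)
    refine ⟨w, hw, fun y hy => ?_, fun j _ hj y hy => ?_⟩
    · rw [hw', LinearMap.sub_apply, LinearMap.id_apply, hz' _ y hy, if_neg hpar, sub_zero]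
    · rw [hw', LinearMap.sub_apply, LinearMap.id_apply, hz' _ y hy, if_pos, sub_self]
      rw [Nat.even_iff] at hpar ⊢
      omega

theorem midWeak_of_cycle (hY : MidCycle W Y) : MidWeak W Y := by
  obtain ⟨z, hz, h1, h2⟩ := hY
  refine ⟨_, Submodule.subset_span ⟨z, hz, rfl⟩, fun y hy h0 => ?_, fun j hjn hj y hy => ⟨1, ?_⟩⟩
  · rw [← h1 y hy]; exact h0
  · rw [pow_one]; exact h2 j hjn hj y hy

theorem midPairs_of_cycle (hY : MidCycle W Y) : MidPairs W Y := by
  obtain ⟨z, hz, h1, h2⟩ := hY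
  exact fun j hjn hj y hy y' hy' =>
    ⟨_, Submodule.subset_span ⟨z, hz, rfl⟩, h1 y hy, h2 j hjn hj y' hy'⟩

theorem cutsOut_of_midWeak (hY : MidWeak W Y) :
    ∃ f ∈ KOp W Y Y 0, CutsOut (W.gr Y) Y.dim f := by
  obtain ⟨φ, hφ, h⟩ := hY
  rw [span_cycleOperators0] at hφ
  exact cutsOut_of_weak kone kmul (fun _ ha i _ hy => kop_gr ha i hy) hφ h

theorem cutsOut_of_midPairs (hY : MidPairs W Y) :
    ∃ f ∈ KOp W Y Y 0, CutsOut (W.gr Y) Y.dim f :=
  cutsOut_of_separates span_cycleOperators0 kone kmul (fun _ ha i _ hy => kop_gr ha i hy) hY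

theorem midPairs_of_detects (hY : MidDetects W Y) : MidPairs W Y := by
  intro j hjn hj y hy y' hy'
  rw [span_cycleOperators0]
  have hj2 : j ≤ 2 * Y.dim := by omega
  -- the subspace of the pairs `(φ y, φ y')`
  let M : Submodule W.K (W.H Y × W.H Y) := (KOp W Y Y 0).map
    ((LinearMap.applyₗ y).prod (LinearMap.applyₗ y'))
  by_contra hcon
  have hnot : ((y, 0) : W.H Y × W.H Y) ∉ M := by
    rintro ⟨φ, hφ, hφy⟩
    have h1 : φ y = y := congrArg Prod.fst hφy
    have h2 : φ y' = 0 := congrArg Prod.snd hφy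
    exact hcon ⟨φ, hφ, h1, h2⟩
  obtain ⟨f, hf, hfM⟩ := Submodule.exists_le_ker_of_notMem hnot
  obtain ⟨w, hw⟩ := exists_dual (W := W) (X := Y) (f ∘ₗ LinearMap.inl W.K _ _)
  obtain ⟨w', hw'⟩ := exists_dual (W := W) (X := Y) (f ∘ₗ LinearMap.inr W.K _ _)
  have hff : ∀ x x', f (x, x') = W.tr Y (x * w) + W.tr Y (x' * w') := by
    intro x x'
    rw [← hw, ← hw', LinearMap.comp_apply, LinearMap.comp_apply, ← map_add]
    simp
  have hi2 : Y.dim ≤ 2 * Y.dim := by omega
  have hmid : 2 * Y.dim - Y.dim = Y.dim := by omega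
  apply hf
  rw [hff, zero_mul, map_zero, add_zero, ← tr_mul_proj hi2 hy w]
  have hwm : proj (W.isInternal Y) (2 * Y.dim - Y.dim) w ∈ W.gr Y Y.dim := by
    rw [hmid]
    exact proj_mem (W.isInternal Y) Y.dim w
  apply hY j hjn hj y hy _ hwm y' hy' _ (proj_mem (W.isInternal Y) (2 * Y.dim - j) w')
  rintro _ ⟨z, hz, rfl⟩
  have hφ : W.corr (W.cl (Y.prod Y) z) ∈ KOp W Y Y 0 := KOp.gen (p := Y.dim) (by ring) hz
  rw [mul_add, map_add, tr_cycle_ext, tr_cycle_ext, tr_mul_proj hi2 (kop_gr hφ _ hy),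
    tr_mul_proj hj2 (kop_gr hφ j hy'), ← hff]
  exact hfM ⟨_, hφ, rfl⟩

theorem midDetects_of_pairs (hY : MidPairs W Y) : MidDetects W Y := by
  intro j hjn hj y hy w _ y' hy' w' _ horth
  obtain ⟨φ, hφ, h1, h2⟩ := hY j hjn hj y hy y' hy'
  have key : ∀ φ ∈ Submodule.span W.K (cycleOperators W Y Y.dim),
      W.tr Y (φ y * w) + W.tr Y (φ y' * w') = 0 := by
    intro φ hφ
    induction hφ using Submodule.span_induction with
    | mem φ hφ =>
      obtain ⟨z, hz, rfl⟩ := hφ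
      have := horth _ ⟨z, hz, rfl⟩
      rwa [mul_add, map_add, tr_cycle_ext, tr_cycle_ext] at this
    | zero => simp
    | add φ ψ _ _ h1 h2 =>
      rw [LinearMap.add_apply, LinearMap.add_apply, add_mul, add_mul, map_add, map_add]
      linear_combination h1 + h2
    | smul a φ _ h1 =>
      rw [LinearMap.smul_apply, LinearMap.smul_apply, smul_mul_assoc, smul_mul_assoc, map_smul,
        map_smul, ← smul_add, h1, smul_zero]
  have := key φ hφ
  rwa [h1, h2, zero_mul, map_zero, add_zero] at this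

/-- **One variety.** -/
theorem one_tfae (hP : IsProjLike W P h) (hdim : X.dim ≤ P.dim + 1) :
    [SignStd W X, SignStd W (X.prod P), MidCycle W (X.prod P), MidWeak W (X.prod P),
      MidPairs W (X.prod P), MidDetects W (X.prod P)].TFAE := by
  tfae_have 1 → 2 := sign_prod hP
  tfae_have 2 → 3 := midCycle_of_sign
  tfae_have 3 → 4 := midWeak_of_cycle
  tfae_have 3 → 5 := midPairs_of_cycle
  tfae_have 4 → 1 := by
    intro hY
    obtain ⟨f, hf, hc⟩ := cutsOut_of_midWeak hY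
    exact sign_of_cutsOut hP hdim hf hc
  tfae_have 5 → 1 := by
    intro hY
    obtain ⟨f, hf, hc⟩ := cutsOut_of_midPairs hY
    exact sign_of_cutsOut hP hdim hf hc
  tfae_have 5 → 6 := midDetects_of_pairs
  tfae_have 6 → 5 := midPairs_of_detects
  tfae_finish

/-- **All varieties.** -/
theorem all_tfae {P : ℕ → 𝒱.Obj} {h : ∀ m, (P m).Cycles} (hdP : ∀ m, (P m).dim = m)
    (hP : ∀ m, IsProjLike W (P m) (h m)) {C : 𝒱.Obj → Prop}
    (hC : ClosedUnder P C) : AllVarieties W C := by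
  -- a variety of the right parity
  have hodd : ∀ X : 𝒱.Obj, C X → ∃ m, X.dim ≤ (P m).dim + 1 ∧ C (X.prod (P m)) ∧
      Odd (X.prod (P m)).dim := fun X hX =>
    ⟨X.dim + 1, by rw [hdP]; omega, hC X _ hX, by
      rw [dim_prod X (P (X.dim + 1)), hdP, Nat.odd_iff]; omega⟩
  have heven : ∀ X : 𝒱.Obj, C X → ∃ m, X.dim ≤ (P m).dim + 1 ∧ C (X.prod (P m)) ∧
      Even (X.prod (P m)).dim := fun X hX =>
    ⟨X.dim, by rw [hdP]; omega, hC X _ hX, by
      rw [dim_prod X (P X.dim), hdP, Nat.even_iff]; omega⟩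
  have fwd : ∀ {S : 𝒱.Obj → Prop} (q : ℕ → Prop), (∀ Y, SignStd W Y → S Y) →
      ForAll C (fun _ => True) (SignStd W) → ForAll C q S :=
    fun q hS hall X hX _ => hS X (hall X hX trivial)
  have bwd : ∀ {S : 𝒱.Obj → Prop} {q : ℕ → Prop},
      (∀ X : 𝒱.Obj, C X → ∃ m, X.dim ≤ (P m).dim + 1 ∧ C (X.prod (P m)) ∧
        q (X.prod (P m)).dim) →
      (∀ (X : 𝒱.Obj) (m : ℕ), X.dim ≤ (P m).dim + 1 → S (X.prod (P m)) → SignStd W X) →
      ForAll C q S → ForAll C (fun _ => True) (SignStd W) := by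
    intro S q hq hS hall X hX _
    obtain ⟨m, hm, hCm, hqm⟩ := hq X hX
    exact hS X m hm (hall _ hCm hqm)
  have b3 : ∀ (X : 𝒱.Obj) (m : ℕ), X.dim ≤ (P m).dim + 1 → MidCycle W (X.prod (P m)) →
      SignStd W X := fun X m hm h3 => ((one_tfae (hP m) hm).out 2 0).1 h3
  have b4 : ∀ (X : 𝒱.Obj) (m : ℕ), X.dim ≤ (P m).dim + 1 → MidWeak W (X.prod (P m)) →
      SignStd W X := fun X m hm h3 => ((one_tfae (hP m) hm).out 3 0).1 h3
  have b5 : ∀ (X : 𝒱.Obj) (m : ℕ), X.dim ≤ (P m).dim + 1 → MidPairs W (X.prod (P m)) →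
      SignStd W X := fun X m hm h3 => ((one_tfae (hP m) hm).out 4 0).1 h3
  have b6 : ∀ (X : 𝒱.Obj) (m : ℕ), X.dim ≤ (P m).dim + 1 → MidDetects W (X.prod (P m)) →
      SignStd W X := fun X m hm h3 => ((one_tfae (hP m) hm).out 5 0).1 h3
  have f3 : ∀ Y, SignStd W Y → MidCycle W Y := fun Y => midCycle_of_sign
  have f4 : ∀ Y, SignStd W Y → MidWeak W Y := fun Y hY => midWeak_of_cycle (f3 Y hY)
  have f5 : ∀ Y, SignStd W Y → MidPairs W Y := fun Y hY => midPairs_of_cycle (f3 Y hY)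
  have f6 : ∀ Y, SignStd W Y → MidDetects W Y := fun Y hY => midDetects_of_pairs (f5 Y hY)
  refine ⟨?_, ?_, ?_, ?_⟩
  · unfold SameAs
    tfae_have 1 → 2 := fwd _ f3
    tfae_have 1 → 3 := fwd _ f3
    tfae_have 2 → 1 := bwd hodd b3
    tfae_have 3 → 1 := bwd heven b3
    tfae_finish
  · unfold SameAs
    tfae_have 1 → 2 := fwd _ f4
    tfae_have 1 → 3 := fwd _ f4
    tfae_have 2 → 1 := bwd hodd b4
    tfae_have 3 → 1 := bwd heven b4
    tfae_finish
  · unfold SameAs
    tfae_have 1 → 2 := fwd _ f5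
    tfae_have 1 → 3 := fwd _ f5
    tfae_have 2 → 1 := bwd hodd b5
    tfae_have 3 → 1 := bwd heven b5
    tfae_finish
  · unfold SameAs
    tfae_have 1 → 2 := fwd _ f6
    tfae_have 1 → 3 := fwd _ f6
    tfae_have 2 → 1 := bwd hodd b6
    tfae_have 3 → 1 := bwd heven b6
    tfae_finish

end Pool.Agent.TH720.MP
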